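import Pool.Agent.Lib.MP_405077_mp.Defs

/-!
# CONV: convexity of the functional
-/

set_option autoImplicit false

open MeasureTheory Set Filter Topology

namespace Pool.Agent.Lib.MP_405077_mp.H78

/-- The Coulomb kernel of two densities. -/
noncomputable def K (f g : E3 → ℝ) (p : E3 × E3) : ℝ := f p.1 * g p.2 / ‖p.1 - p.2‖

theorem int_pot (f g : E3 → ℝ) (h : Integrable (K f g) (volume.prod volume)) :
    ∫ x, f x * pot g x = ∫ p, K f g p ∂(volume.prod volume) := by
  rw [integral_prod _ h]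
  refine integral_congr_ae (Eventually.of_forall fun x => ?_)
  simp only [K, pot]
  rw [← integral_const_mul]
  refine integral_congr_ae (Eventually.of_forall fun y => ?_)
  simp only
  ring

theorem K_le (f g h : E3 → ℝ) (hf : ∀ x, 0 ≤ f x) (hg : ∀ x, 0 ≤ g x)
    (hfh : ∀ x, f x ≤ h x) (hgh : ∀ x, g x ≤ h x) (hfi : Integrable f) (hgi : Integrable g)
    (hK : Integrable (K h h) (volume.prod volume)) :
    Integrable (K f g) (volume.prod volume) := by
  refine hK.mono ?_ (Eventually.of_forall fun p => ?_)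
  · have h1 : AEStronglyMeasurable (fun p : E3 × E3 => f p.1) (volume.prod volume) :=
      hfi.aestronglyMeasurable.comp_fst
    have h2 : AEStronglyMeasurable (fun p : E3 × E3 => g p.2) (volume.prod volume) :=
      hgi.aestronglyMeasurable.comp_snd
    have h3 : Measurable (fun p : E3 × E3 => ‖p.1 - p.2‖) := by fun_prop
    exact ((h1.mul h2).aemeasurable.div h3.aemeasurable).aestronglyMeasurable
  · have h1 : 0 ≤ h p.1 := (hf _).trans (hfh _)
    have h2 : 0 ≤ h p.2 := (hg _).trans (hgh _)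
    have h3 := hf p.1
    have h4 := hg p.2
    rw [Real.norm_eq_abs, Real.norm_eq_abs, K, K, abs_of_nonneg (by positivity),
      abs_of_nonneg (by positivity)]
    gcongr
    · exact hfh _
    · exact hgh _

theorem int4 {A B C D : E3 × E3 → ℝ} (hA : Integrable A (volume.prod volume))
    (hB : Integrable B (volume.prod volume)) (hC : Integrable C (volume.prod volume))
    (hD : Integrable D (volume.prod volume)) (a b c d : ℝ) :
    ∫ p, (a * A p + b * B p + c * C p + d * D p) ∂(volume.prod volume) =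
      a * (∫ p, A p ∂(volume.prod volume)) + b * (∫ p, B p ∂(volume.prod volume)) +
        c * (∫ p, C p ∂(volume.prod volume)) + d * (∫ p, D p ∂(volume.prod volume)) := by
  have hA' := hA.const_mul a
  have hB' := hB.const_mul b
  have hC' := hC.const_mul c
  have hD' := hD.const_mul d
  have e1 := integral_add hA' hB'
  have e2 := integral_add (hA'.add hB') hC'
  have e3 := integral_add ((hA'.add hB').add hC') hD'
  simp only [Pi.add_apply] at e1 e2 e3
  rw [e3, e2, e1]
  simp only [integral_const_mul]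

theorem conv53 (s t a b : ℝ) (hs : 0 ≤ s) (ht : 0 ≤ t) (ha : 0 ≤ a) (hb : 0 ≤ b)
    (hab : a + b = 1) :
    (a * s + b * t) ^ (5 / 3 : ℝ) ≤ a * s ^ (5 / 3 : ℝ) + b * t ^ (5 / 3 : ℝ) := by
  have h := (convexOn_rpow (p := 5 / 3) (by norm_num)).2 (mem_Ici.2 hs) (mem_Ici.2 ht) ha hb hab
  simpa [smul_eq_mul] using h

theorem adm_add {σ₁ σ₂ : E3 → ℝ} {a b : ℝ} (h1 : Adm σ₁) (h2 : Adm σ₂) (ha : 0 ≤ a)
    (hb : 0 ≤ b) (hab : a + b = 1) : Adm (fun x => a * σ₁ x + b * σ₂ x) := by
  have hn : ∀ x, 0 ≤ a * σ₁ x + b * σ₂ x := fun x =>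
    add_nonneg (mul_nonneg ha (h1.nonneg x)) (mul_nonneg hb (h2.nonneg x))
  have hi : Integrable (fun x => a * σ₁ x + b * σ₂ x) := (h1.int.const_mul a).add
    (h2.int.const_mul b)
  refine ⟨hn, hi, ?_⟩
  refine ((h1.int53.const_mul a).add (h2.int53.const_mul b)).mono ?_
    (Eventually.of_forall fun x => ?_)
  · exact (hi.aemeasurable.pow_const _).aestronglyMeasurable
  · have h3 := Real.rpow_nonneg (hn x) (5 / 3 : ℝ)
    have h4 := mul_nonneg ha (Real.rpow_nonneg (h1.nonneg x) (5 / 3 : ℝ))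
    have h5 := mul_nonneg hb (Real.rpow_nonneg (h2.nonneg x) (5 / 3 : ℝ))
    rw [Real.norm_eq_abs, Real.norm_eq_abs, abs_of_nonneg h3, Pi.add_apply,
      abs_of_nonneg (add_nonneg h4 h5)]
    exact conv53 _ _ _ _ (h1.nonneg x) (h2.nonneg x) ha hb hab

/-- The sum of two admissible densities is admissible. -/
theorem adm_sum {σ₁ σ₂ : E3 → ℝ} (h1 : Adm σ₁) (h2 : Adm σ₂) : Adm (fun x => σ₁ x + σ₂ x) := by
  have h3 := adm_add (a := 1 / 2) (b := 1 / 2) h1 h2 (by norm_num) (by norm_num) (by norm_num)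
  refine ⟨fun x => add_nonneg (h1.nonneg x) (h2.nonneg x), h1.int.add h2.int, ?_⟩
  have h4 := h3.int53.const_mul ((2 : ℝ) ^ (5 / 3 : ℝ))
  refine h4.congr (Eventually.of_forall fun x => ?_)
  simp only
  rw [← Real.mul_rpow (by norm_num) (h3.nonneg x)]
  congr 1
  ring

theorem conv (hadm : AdmStatement) (hpos : PosStatement) : ConvStatement := by
  intro k z R γ τ hz hγ hτ σ₁ σ₂ a b h1 h2 ha hb hab
  have h3 := adm_add h1 h2 ha hb hab
  refine ⟨h3, ?_⟩
  have hs := adm_sum h1 h2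
  have hKs : Integrable (K (fun x => σ₁ x + σ₂ x) (fun x => σ₁ x + σ₂ x))
      (volume.prod volume) := (hadm _ hs).2.2.2
  have hn1 := h1.nonneg
  have hn2 := h2.nonneg
  have hle1 : ∀ x, σ₁ x ≤ σ₁ x + σ₂ x := fun x => by linarith [hn2 x]
  have hle2 : ∀ x, σ₂ x ≤ σ₁ x + σ₂ x := fun x => by linarith [hn1 x]
  have K11 := K_le _ _ _ hn1 hn1 hle1 hle1 h1.int h1.int hKs
  have K12 := K_le _ _ _ hn1 hn2 hle1 hle2 h1.int h2.int hKs
  have K21 := K_le _ _ _ hn2 hn1 hle2 hle1 h2.int h1.int hKs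
  have K22 := K_le _ _ _ hn2 hn2 hle2 hle2 h2.int h2.int hKs
  -- bilinear expansion
  have hexp : ∀ s t : ℝ, K (fun x => s * σ₁ x + t * σ₂ x) (fun x => s * σ₁ x + t * σ₂ x) =
      fun p => s ^ 2 * K σ₁ σ₁ p + s * t * K σ₁ σ₂ p + s * t * K σ₂ σ₁ p + t ^ 2 * K σ₂ σ₂ p := by
    intro s t
    funext p
    simp only [K]
    ring
  have hint : ∀ s t : ℝ, Integrable (K (fun x => s * σ₁ x + t * σ₂ x)
      (fun x => s * σ₁ x + t * σ₂ x)) (volume.prod volume) := by
    intro s t
    rw [hexp]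
    exact (((K11.const_mul _).add (K12.const_mul _)).add (K21.const_mul _)).add
      (K22.const_mul _)
  have hval : ∀ s t : ℝ, ∫ x, (fun x => s * σ₁ x + t * σ₂ x) x *
      pot (fun x => s * σ₁ x + t * σ₂ x) x =
      s ^ 2 * (∫ x, σ₁ x * pot σ₁ x) + s * t * (∫ x, σ₁ x * pot σ₂ x) +
        s * t * (∫ x, σ₂ x * pot σ₁ x) + t ^ 2 * (∫ x, σ₂ x * pot σ₂ x) := by
    intro s t
    rw [int_pot _ _ (hint s t), int_pot _ _ K11, int_pot _ _ K12, int_pot _ _ K21,
      int_pot _ _ K22, hexp]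
    exact int4 K11 K12 K21 K22 _ _ _ _
  have hval' := hval a b
  have hpos' := hval 1 (-1)
  have hpos2 := hpos (fun x => 1 * σ₁ x + (-1) * σ₂ x)
    ((h1.int.const_mul 1).add (h2.int.const_mul (-1))) (hint 1 (-1))
  simp only at hval' hpos'
  rw [hpos'] at hpos2
  have hb' : b = 1 - a := by linarith
  have hdir : dir (fun x => a * σ₁ x + b * σ₂ x) ≤ a * dir σ₁ + b * dir σ₂ := by
    unfold dir
    rw [hval']
    have h5 := mul_nonneg (mul_nonneg ha hb) hpos2
    subst hb'
    nlinarith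
  have hkin : kin (fun x => a * σ₁ x + b * σ₂ x) ≤ a * kin σ₁ + b * kin σ₂ := by
    unfold kin
    have h5 : ∫ x, (a * σ₁ x + b * σ₂ x) ^ (5 / 3 : ℝ) ≤
        ∫ x, (a * σ₁ x ^ (5 / 3 : ℝ) + b * σ₂ x ^ (5 / 3 : ℝ)) :=
      integral_mono h3.int53 ((h1.int53.const_mul a).add (h2.int53.const_mul b))
        fun x => conv53 _ _ _ _ (hn1 x) (hn2 x) ha hb hab
    rw [integral_add (h1.int53.const_mul a) (h2.int53.const_mul b), integral_const_mul,
      integral_const_mul] at h5
    linarith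
  have hVint : ∀ σ : E3 → ℝ, Adm σ → Integrable (fun x => nuc z R x * σ x) := by
    intro σ hσ
    have h5 : (fun x => nuc z R x * σ x) = fun x => ∑ i, z i * (σ x / ‖R i - x‖) := by
      funext x
      unfold nuc
      rw [Finset.sum_mul]
      refine Finset.sum_congr rfl fun i _ => ?_
      rw [norm_sub_rev (R i) x]
      ring
    rw [h5]
    exact integrable_finsetSum _ fun i _ => ((hadm σ hσ).1 (R i)).const_mul (z i)
  have hV : ∫ x, nuc z R x * (a * σ₁ x + b * σ₂ x) =
      a * (∫ x, nuc z R x * σ₁ x) + b * ∫ x, nuc z R x * σ₂ x := by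
    rw [← integral_const_mul, ← integral_const_mul,
      ← integral_add ((hVint _ h1).const_mul a) ((hVint _ h2).const_mul b)]
    refine integral_congr_ae (Eventually.of_forall fun x => ?_)
    simp only
    ring
  unfold fun0
  rw [hV]
  have h6 := mul_le_mul_of_nonneg_left hdir hτ.le
  have h7 := mul_le_mul_of_nonneg_left hkin (mul_nonneg (sq_nonneg τ) hγ.le)
  nlinarith

end Pool.Agent.Lib.MP_405077_mp.H78
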